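import Mathlib
import Pool.Agent.N979.CAP.Stm

/-! # CAP/CAR: the comass inequality, rotation from polar to cartesian coordinates -/

set_option autoImplicit false

namespace Pool.Agent.N402.CAP_CAR

open Real Finset
open Pool.Agent.N979.CAP

theorem cos_ps (N : ℕ) (φ : ℝ) (j : ℕ) :
    cos (ps N φ j) = cos (th N j) * cos φ + sin (th N j) * sin φ := by
  unfold ps th
  rw [cos_sub]

theorem sin_ps (N : ℕ) (φ : ℝ) (j : ℕ) :
    sin (ps N φ j) = sin (th N j) * cos φ - cos (th N j) * sin φ := by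
  unfold ps th
  rw [sin_sub]

theorem lin (N : ℕ) (φ : ℝ) (j : ℕ) (u v : ℝ) :
    cos (ps N φ j) * (cos φ * u + sin φ * v) + sin (ps N φ j) * (-sin φ * u + cos φ * v)
      = cos (th N j) * u + sin (th N j) * v := by
  have hcs : cos φ ^ 2 + sin φ ^ 2 = 1 := by
    have := sin_sq_add_cos_sq φ
    linarith
  rw [cos_ps, sin_ps]
  linear_combination (cos (th N j) * u + sin (th N j) * v) * hcs

/-- The two moment equations in polar form. -/
theorem rot (N : ℕ) (φ : ℝ) (w : ℕ → ℝ) (a : ℕ → ℝ) (u v : ℝ)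
    (h1 : ∑ j ∈ range N, cos (th N j) / w j * (cos (th N j) * u + sin (th N j) * v)
      = ∑ j ∈ range N, cos (th N j) * a j)
    (h2 : ∑ j ∈ range N, sin (th N j) / w j * (cos (th N j) * u + sin (th N j) * v)
      = ∑ j ∈ range N, sin (th N j) * a j) :
    ∑ j ∈ range N, cos (ps N φ j) / w j * (cos (ps N φ j) * (cos φ * u + sin φ * v)
        + sin (ps N φ j) * (-sin φ * u + cos φ * v))
      = ∑ j ∈ range N, cos (ps N φ j) * a j ∧
    ∑ j ∈ range N, sin (ps N φ j) / w j * (cos (ps N φ j) * (cos φ * u + sin φ * v)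
        + sin (ps N φ j) * (-sin φ * u + cos φ * v))
      = ∑ j ∈ range N, sin (ps N φ j) * a j := by
  constructor
  · have e1 : ∑ j ∈ range N, cos (ps N φ j) / w j * (cos (ps N φ j) * (cos φ * u + sin φ * v)
        + sin (ps N φ j) * (-sin φ * u + cos φ * v))
      = cos φ * (∑ j ∈ range N, cos (th N j) / w j * (cos (th N j) * u + sin (th N j) * v))
        + sin φ * (∑ j ∈ range N, sin (th N j) / w j
          * (cos (th N j) * u + sin (th N j) * v)) := by
      rw [mul_sum, mul_sum, ← sum_add_distrib]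
      refine sum_congr rfl fun j _ => ?_
      rw [lin, cos_ps]
      ring
    have e2 : ∑ j ∈ range N, cos (ps N φ j) * a j
      = cos φ * (∑ j ∈ range N, cos (th N j) * a j)
        + sin φ * (∑ j ∈ range N, sin (th N j) * a j) := by
      rw [mul_sum, mul_sum, ← sum_add_distrib]
      refine sum_congr rfl fun j _ => ?_
      rw [cos_ps]
      ring
    rw [e1, e2, h1, h2]
  · have e1 : ∑ j ∈ range N, sin (ps N φ j) / w j * (cos (ps N φ j) * (cos φ * u + sin φ * v)
        + sin (ps N φ j) * (-sin φ * u + cos φ * v))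
      = cos φ * (∑ j ∈ range N, sin (th N j) / w j * (cos (th N j) * u + sin (th N j) * v))
        - sin φ * (∑ j ∈ range N, cos (th N j) / w j
          * (cos (th N j) * u + sin (th N j) * v)) := by
      rw [mul_sum, mul_sum, ← sum_sub_distrib]
      refine sum_congr rfl fun j _ => ?_
      rw [lin, sin_ps]
      ring
    have e2 : ∑ j ∈ range N, sin (ps N φ j) * a j
      = cos φ * (∑ j ∈ range N, sin (th N j) * a j)
        - sin φ * (∑ j ∈ range N, cos (th N j) * a j) := by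
      rw [mul_sum, mul_sum, ← sum_sub_distrib]
      refine sum_congr rfl fun j _ => ?_
      rw [sin_ps]
      ring
    rw [e1, e2, h1, h2]

theorem main (h : S_POL) : S_CAR := by
  intro ε hε
  obtain ⟨N₀, hN₀⟩ := h ε hε
  refine ⟨N₀, fun N hN x y hxy a b hab xa xb ya yb h1 h2 h3 h4 => ?_⟩
  obtain ⟨s, φ, hs0, hx, hy⟩ : ∃ s φ : ℝ, 0 ≤ s ∧ x = s * cos φ ∧ y = s * sin φ := by
    refine ⟨‖(⟨x, y⟩ : ℂ)‖, Complex.arg ⟨x, y⟩, norm_nonneg _, ?_, ?_⟩
    · rw [Complex.norm_mul_cos_arg]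
    · rw [Complex.norm_mul_sin_arg]
  have hcs : cos φ ^ 2 + sin φ ^ 2 = 1 := by
    have := sin_sq_add_cos_sq φ
    linarith
  have hs2 : x ^ 2 + y ^ 2 = s ^ 2 := by
    rw [hx, hy]
    linear_combination s ^ 2 * hcs
  have hs1 : s ≤ 471 / 500 := by
    rw [hs2] at hxy
    exact (sq_le_sq₀ hs0 (by norm_num)).1 hxy
  have hdt : ∀ j, dt x y (th N j) = s * cos (ps N φ j) := fun j => by
    unfold dt
    rw [cos_ps, hx, hy]
    ring
  have hDD : ∀ j, 1 - dt x y (th N j) ^ 2 = DD s (ps N φ j) := fun j => by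
    rw [hdt]
    unfold DD
    ring
  simp only [hDD] at h1 h2 h3 h4
  obtain ⟨p1, p2⟩ := rot N φ (fun j => √(DD s (ps N φ j))) a xa ya h1 h2
  obtain ⟨p3, p4⟩ := rot N φ (fun j => √(DD s (ps N φ j))) b xb yb h3 h4
  have key := hN₀ N hN s ⟨hs0, hs1⟩ φ a b hab (cos φ * xa + sin φ * ya)
    (cos φ * xb + sin φ * yb) (-sin φ * xa + cos φ * ya) (-sin φ * xb + cos φ * yb) p1 p2 p3 p4
  refine le_trans (le_of_eq ?_) key
  have e1 : 1 - x ^ 2 - y ^ 2 = 1 - s ^ 2 := by linarith
  have e2 : (cos φ * xa + sin φ * ya) * (-sin φ * xb + cos φ * yb)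
      - (cos φ * xb + sin φ * yb) * (-sin φ * xa + cos φ * ya) = xa * yb - xb * ya := by
    linear_combination (xa * yb - xb * ya) * hcs
  rw [e1, e2]
  congr 2
  refine sum_congr rfl fun j _ => ?_
  rw [hDD]
  congr 1
  rw [hdt, cos_ps, sin_ps, hx, hy]
  linear_combination
    -(sin (th N j) * (xa * b j - xb * a j) - cos (th N j) * (ya * b j - yb * a j)) * hcs

end Pool.Agent.N402.CAP_CAR
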