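import Pool.Agent.N979.P1.Stm

/-!
# Project P1 (helper979), task SGN (helper402): the functions `A` and `C` on the sectors
-/

set_option autoImplicit false

open MeasureTheory Metric Set Filter Topology

namespace Pool.Agent.N402.P1SGN

open Pool.Agent.H241R3.FV Pool.Agent.N526.CP Pool.Agent.N979.P1

theorem sct_iff {L : ℕ} {t : Fin L → ℝ} (ht : StrictMono t) {w : E 2} (hw : w 0 ≠ 0) (i : Fin L) :
    t i * |w 0| ≤ |w 1| ↔ i.val < (sct t w).val := by
  have h0 : 0 < |w 0| := abs_pos.2 hw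
  have hv : (sct t w).val = (Finset.univ.filter fun i => t i * |w 0| ≤ |w 1|).card := rfl
  constructor
  · intro h
    have hsub : Finset.Iic i ⊆ Finset.univ.filter fun i => t i * |w 0| ≤ |w 1| := by
      intro j hj
      rw [Finset.mem_Iic] at hj
      rw [Finset.mem_filter]
      refine ⟨Finset.mem_univ _, le_trans ?_ h⟩
      exact mul_le_mul_of_nonneg_right (ht.monotone hj) h0.le
    have h1 := Finset.card_le_card hsub
    rw [Fin.card_Iic, ← hv] at h1
    omega
  · intro h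
    by_contra hcon
    have hsub : (Finset.univ.filter fun i => t i * |w 0| ≤ |w 1|) ⊆ Finset.Iio i := by
      intro j hj
      rw [Finset.mem_filter] at hj
      rw [Finset.mem_Iio]
      by_contra hij
      exact hcon (le_trans (mul_le_mul_of_nonneg_right (ht.monotone (not_lt.1 hij)) h0.le) hj.2)
    have h1 := Finset.card_le_card hsub
    rw [Fin.card_Iio, ← hv] at h1
    omega

theorem sgn_cases {x : ℝ} (hx : x ≠ 0) :
    (0 < x ∧ ((SignType.sign x : SignType) : ℝ) = 1) ∨ (x < 0 ∧ ((SignType.sign x : SignType) : ℝ) = -1) := by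
  rcases lt_or_gt_of_ne hx with h | h
  · right
    refine ⟨h, ?_⟩
    rw [sign_neg h]
    simp
  · left
    refine ⟨h, ?_⟩
    rw [sign_pos h]
    simp

theorem sgn_abs {x : ℝ} (hx : x ≠ 0) : ((SignType.sign x : SignType) : ℝ) * |x| = x := by
  rcases sgn_cases hx with ⟨h, e⟩ | ⟨h, e⟩
  · rw [e, abs_of_pos h, one_mul]
  · rw [e, abs_of_neg h]
    ring

theorem Mc_lo {t : ℝ} (ht : 0 < t) {w : E 2} (h1 : w 1 ≠ 0) (h : t * |w 0| ≤ |w 1|) :
    Mc t w = ((SignType.sign (w 1) : SignType) : ℝ) * (t * |w 0|) := by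
  have ha : 0 ≤ t * |w 0| := by positivity
  unfold Mc
  rcases sgn_cases h1 with ⟨hp, e⟩ | ⟨hn, e⟩
  · rw [abs_of_pos hp] at h
    rw [e, min_eq_left h, max_eq_right (by linarith), one_mul]
  · rw [abs_of_neg hn] at h
    rw [e, min_eq_right (by linarith), max_eq_left (by linarith)]
    ring

theorem Mc_hi {t : ℝ} {w : E 2} (h : ¬ t * |w 0| ≤ |w 1|) : Mc t w = w 1 := by
  rw [not_le] at h
  have h2 := abs_lt.1 h
  unfold Mc
  rw [min_eq_right h2.2.le, max_eq_right h2.1.le]

theorem Mc'_lo {t : ℝ} {w : E 2} (h0 : w 0 ≠ 0) (h : t * |w 0| ≤ |w 1|) :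
    Mc' t w = -(((SignType.sign (w 0) : SignType) : ℝ) * (t * |w 1|)) := by
  unfold Mc'
  rw [if_neg (not_lt.2 h)]
  rcases sgn_cases h0 with ⟨hp, e⟩ | ⟨hn, e⟩
  · rw [if_pos hp, e, one_mul]
  · rw [if_neg (not_lt.2 hn.le), e]
    ring

theorem Mc'_hi {t : ℝ} {w : E 2} (h : ¬ t * |w 0| ≤ |w 1|) : Mc' t w = w 0 := by
  rw [not_le] at h
  unfold Mc'
  rw [if_pos h]

theorem alg {N L : ℕ} (f m0 : Fin N → ℝ) (a b : Fin N → Fin L → ℝ) (ka x y : ℝ) :
    (∑ j, f j * ∑ i, a j i) * x + (ka + ∑ j, f j * (m0 j + ∑ i, b j i)) * y =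
      ka * y + ∑ j, f j * (m0 j * y + ∑ i, (a j i * x + b j i * y)) := by
  have h : ∀ j, f j * (m0 j * y + ∑ i, (a j i * x + b j i * y)) =
      (f j * ∑ i, a j i) * x + (f j * (m0 j + ∑ i, b j i)) * y := by
    intro j
    rw [Finset.sum_add_distrib, ← Finset.sum_mul, ← Finset.sum_mul]
    ring
  rw [Finset.sum_congr rfl fun j _ => h j, Finset.sum_add_distrib, ← Finset.sum_mul,
    ← Finset.sum_mul]
  ring

/-- SGN -/
theorem main : S_SGN := by
  intro N L D _ _ ht hmt J r _ hJ w _ h0 h1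
  obtain ⟨n, hn⟩ : ∃ n, n = sct D.t w := ⟨_, rfl⟩
  have hiff : ∀ i, D.t i * |w 0| ≤ |w 1| ↔ i.val < n.val := fun i => by rw [hn]; exact sct_iff hmt h0 i
  rw [← hn]
  obtain ⟨s, hs⟩ : ∃ s : ℝ, s = ((SignType.sign (w 1) : SignType) : ℝ) := ⟨_, rfl⟩
  obtain ⟨s', hs'⟩ : ∃ s' : ℝ, s' = ((SignType.sign (w 0) : SignType) : ℝ) := ⟨_, rfl⟩
  have e1 : s * |w 1| = w 1 := by rw [hs]; exact sgn_abs h1
  have e0 : s' * |w 0| = w 0 := by rw [hs']; exact sgn_abs h0
  rw [← hs, ← hs']
  constructor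
  · have hA : s * (D.al (fA J) n * |w 0| + D.be (fA J) n * |w 1|) =
        D.al (fA J) n * (s * |w 0|) + D.be (fA J) n * w 1 := by
      rw [← e1]
      simp only [e1]
      linear_combination (D.be (fA J) n) * e1
    rw [hA]
    unfold Dat.al Dat.be Dat.A
    rw [alg]
    congr 1
    refine Finset.sum_congr rfl fun j _ => ?_
    unfold fA
    by_cases hj : D.ρ j < r
    · rw [if_pos hj, if_pos ((hJ j).1 hj), one_mul]
      congr 1
      refine Finset.sum_congr rfl fun i _ => ?_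
      by_cases hi : D.t i * |w 0| ≤ |w 1|
      · have hi' := (hiff i).1 hi
        rw [Mc_lo (ht i) h1 hi, if_pos hi', if_neg (by omega), ← hs]
        ring
      · have hi' : ¬ i.val < n.val := fun h => hi ((hiff i).2 h)
        rw [Mc_hi hi, if_neg hi', if_pos (by omega)]
        ring
    · rw [if_neg hj, if_neg (fun h => hj ((hJ j).2 h)), zero_mul]
  · have hC : s' * (D.al (fC D J r) n * |w 1| - D.be (fC D J r) n * |w 0|) =
        D.al (fC D J r) n * (s' * |w 1|) + D.be (fC D J r) n * (-w 0) := by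
      linear_combination -(D.be (fC D J r) n) * e0
    rw [hC]
    unfold Dat.al Dat.be Dat.C
    rw [alg, neg_add, ← Finset.sum_neg_distrib, mul_neg]
    congr 1
    refine Finset.sum_congr rfl fun j _ => ?_
    unfold fC
    by_cases hj : D.ρ j < r
    · rw [if_pos hj, if_pos ((hJ j).1 hj), ← mul_neg, neg_add, ← Finset.sum_neg_distrib, mul_neg (D.m0 j)]
      congr 2
      refine Finset.sum_congr rfl fun i _ => ?_
      by_cases hi : D.t i * |w 0| ≤ |w 1|
      · have hi' := (hiff i).1 hi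
        rw [Mc'_lo h0 hi, if_pos hi', if_neg (by omega), ← hs']
        ring
      · have hi' : ¬ i.val < n.val := fun h => hi ((hiff i).2 h)
        rw [Mc'_hi hi, if_neg hi', if_pos (by omega)]
        ring
    · rw [if_neg hj, if_neg (fun h => hj ((hJ j).2 h)), zero_mul, neg_zero]

end Pool.Agent.N402.P1SGN
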