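import Pool.Agent.N657.QL.Stm

/-!
# Project QL, task ENV: the distribution of the angles in the neutral ground state (helper402)
-/

set_option autoImplicit false
set_option linter.all false

namespace Pool.Agent.N402.QL_ENV

open MeasureTheory Filter Topology
open Pool.Agent.N657.QR Pool.Agent.N657.QL

section General

variable {V : Type} [Fintype V] [DecidableEq V]

/-- the phase of a plane wave -/
noncomputable def ph (η : V → ℤ) (θ : V → ℝ) : ℝ := ∑ x, (η x : ℝ) * θ x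

lemma ph_cont (η : V → ℤ) : Continuous (ph η) := by
  unfold ph
  fun_prop

lemma intg (μ : Measure (V → ℝ)) [IsProbabilityMeasure μ] (F : (V → ℝ) → ℝ) (hc : Continuous F)
    (C : ℝ) (hb : ∀ θ, |F θ| ≤ C) : Integrable F μ :=
  Integrable.of_bound hc.aestronglyMeasurable C (ae_of_all _ fun θ => by
    rw [Real.norm_eq_abs]
    exact hb θ)

lemma int_cos (μ : Measure (V → ℝ)) [IsProbabilityMeasure μ] (g : (V → ℝ) → ℝ)
    (hg : Continuous g) : Integrable (fun θ => Real.cos (g θ)) μ :=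
  intg μ _ (Real.continuous_cos.comp hg) 1 fun _ => Real.abs_cos_le_one _

lemma int_sin (μ : Measure (V → ℝ)) [IsProbabilityMeasure μ] (g : (V → ℝ) → ℝ)
    (hg : Continuous g) : Integrable (fun θ => Real.sin (g θ)) μ :=
  intg μ _ (Real.continuous_sin.comp hg) 1 fun _ => Real.abs_sin_le_one _

lemma expand (μ : Measure (V → ℝ)) [IsProbabilityMeasure μ] (T : (V → ℝ) → (V → ℝ))
    (hT : Continuous T) (S : Finset (V → ℤ)) (a b : (V → ℤ) → ℝ) :
    ∫ θ, ∑ η ∈ S, (a η * Real.cos (ph η (T θ)) + b η * Real.sin (ph η (T θ))) ∂μ =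
      ∑ η ∈ S, (a η * (∫ θ, Real.cos (ph η (T θ)) ∂μ) + b η * ∫ θ, Real.sin (ph η (T θ)) ∂μ) := by
  have h1 : ∀ η : V → ℤ, Integrable (fun θ => Real.cos (ph η (T θ))) μ := fun η =>
    int_cos μ _ ((ph_cont η).comp hT)
  have h2 : ∀ η : V → ℤ, Integrable (fun θ => Real.sin (ph η (T θ))) μ := fun η =>
    int_sin μ _ ((ph_cont η).comp hT)
  have h3 : ∀ η ∈ S, Integrable (fun θ => a η * Real.cos (ph η (T θ)) +
      b η * Real.sin (ph η (T θ))) μ := fun η _ =>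
    ((h1 η).const_mul (a η)).add ((h2 η).const_mul (b η))
  rw [integral_finsetSum _ h3]
  refine Finset.sum_congr rfl fun η _ => ?_
  rw [integral_add ((h1 η).const_mul (a η)) ((h2 η).const_mul (b η)), integral_const_mul,
    integral_const_mul]

/-- invariance of the integrals of trigonometric polynomials -/
lemma key (hS : S_TPS) (μ : Measure (V → ℝ)) [IsProbabilityMeasure μ] (T : (V → ℝ) → (V → ℝ))
    (hT : Continuous T)
    (hc : ∀ η : V → ℤ, ∫ θ, Real.cos (ph η (T θ)) ∂μ = ∫ θ, Real.cos (ph η θ) ∂μ)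
    (hs : ∀ η : V → ℤ, ∫ θ, Real.sin (ph η (T θ)) ∂μ = ∫ θ, Real.sin (ph η θ) ∂μ)
    (R : (V → ℝ) → ℝ) (hR : R ∈ TP V) : ∫ θ, R (T θ) ∂μ = ∫ θ, R θ ∂μ := by
  obtain ⟨S, a, b, h⟩ := hS R hR
  have e1 : (fun θ => R (T θ)) = fun θ =>
      ∑ η ∈ S, (a η * Real.cos (ph η (T θ)) + b η * Real.sin (ph η (T θ))) :=
    funext fun θ => h (T θ)
  have e2 : R = fun θ =>
      ∑ η ∈ S, (a η * Real.cos (ph η (id θ)) + b η * Real.sin (ph η (id θ))) :=
    funext fun θ => h θ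
  rw [e1, expand μ T hT S a b]
  conv_rhs => rw [e2]
  rw [expand μ id continuous_id S a b]
  refine Finset.sum_congr rfl fun η _ => ?_
  rw [hc η, hs η]
  rfl

/-- the correlation function -/
noncomputable def Kf (ψ : (V → ℤ) → ℝ) (η : V → ℤ) : ℝ := ∑' n, ψ (n + η) * ψ n

lemma Kf_zero (ψ : (V → ℤ) → ℝ) (h : Sec 0 ψ) (η : V → ℤ) (hη : tot η ≠ 0) : Kf ψ η = 0 := by
  unfold Kf
  have e : (fun n => ψ (n + η) * ψ n) = fun _ => 0 := by
    funext n
    by_contra hne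
    have h1 := h _ (left_ne_zero_of_mul hne)
    have h2 := h _ (right_ne_zero_of_mul hne)
    apply hη
    have h3 : tot (n + η) = tot n + tot η := by
      unfold tot
      simp only [Pi.add_apply, Finset.sum_add_distrib]
    rw [h1, h2] at h3
    linarith
  rw [e, tsum_zero]

lemma cr_eq (ψ : (V → ℤ) → ℝ) (x y : V) : cr x y ψ = Kf ψ (dl x - dl y) := by
  unfold cr Kf hp
  refine tsum_congr fun n => ?_
  rw [add_sub_assoc]

lemma ph_dl (x y : V) (θ : V → ℝ) : ph (dl x - dl y) θ = θ x - θ y := by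
  unfold ph dl
  have e : ∀ z, (((Pi.single x (1 : ℤ) - Pi.single y (1 : ℤ) : V → ℤ) z : ℤ) : ℝ) * θ z =
      (if z = x then θ z else 0) - (if z = y then θ z else 0) := by
    intro z
    rw [Pi.sub_apply, Pi.single_apply, Pi.single_apply]
    split_ifs <;> simp
  rw [Finset.sum_congr rfl fun z _ => e z, Finset.sum_sub_distrib]
  simp

lemma ph_rot (η : V → ℤ) (θ : V → ℝ) (φ : ℝ) :
    ph η (fun x => θ x + φ) = ph η θ + (tot η : ℝ) * φ := by
  unfold ph tot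
  push_cast
  rw [Finset.sum_mul, ← Finset.sum_add_distrib]
  exact Finset.sum_congr rfl fun x _ => by ring

lemma ph_neg (η : V → ℤ) (θ : V → ℝ) : ph η (fun x => -θ x) = -ph η θ := by
  unfold ph
  rw [← Finset.sum_neg_distrib]
  exact Finset.sum_congr rfl fun x _ => by ring

/-- rotations -/
lemma rot (hS : S_TPS) (ψ : (V → ℤ) → ℝ) (h0 : Sec 0 ψ) (μ : Measure (V → ℝ))
    (hμ : IsMeas ψ μ) (R : (V → ℝ) → ℝ) (hR : R ∈ TP V) (φ : ℝ) :
    ∫ θ, R (fun x => θ x + φ) ∂μ = ∫ θ, R θ ∂μ := by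
  have := hμ.1
  have hc0 : ∀ η : V → ℤ, ∫ θ, Real.cos (ph η θ) ∂μ = Kf ψ η := fun η => (hμ.2 η).1
  have hs0 : ∀ η : V → ℤ, ∫ θ, Real.sin (ph η θ) ∂μ = 0 := fun η => (hμ.2 η).2
  have hic : ∀ η : V → ℤ, Integrable (fun θ => Real.cos (ph η θ)) μ := fun η =>
    int_cos μ _ (ph_cont η)
  have his : ∀ η : V → ℤ, Integrable (fun θ => Real.sin (ph η θ)) μ := fun η =>
    int_sin μ _ (ph_cont η)
  refine key hS μ (fun θ x => θ x + φ) (by fun_prop) (fun η => ?_) (fun η => ?_) R hR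
  · have e : (fun θ : V → ℝ => Real.cos (ph η (fun x => θ x + φ))) = fun θ =>
        Real.cos (ph η θ) * Real.cos ((tot η : ℝ) * φ) -
          Real.sin (ph η θ) * Real.sin ((tot η : ℝ) * φ) := by
      funext θ
      rw [ph_rot, Real.cos_add]
    rw [e, integral_sub ((hic η).mul_const _) ((his η).mul_const _), integral_mul_const,
      integral_mul_const, hc0, hs0]
    by_cases ht : tot η = 0
    · rw [ht]; simp
    · rw [Kf_zero ψ h0 η ht]; simp
  · have e : (fun θ : V → ℝ => Real.sin (ph η (fun x => θ x + φ))) = fun θ =>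
        Real.sin (ph η θ) * Real.cos ((tot η : ℝ) * φ) +
          Real.cos (ph η θ) * Real.sin ((tot η : ℝ) * φ) := by
      funext θ
      rw [ph_rot, Real.sin_add]
    rw [e, integral_add ((his η).mul_const _) ((hic η).mul_const _), integral_mul_const,
      integral_mul_const, hc0, hs0]
    by_cases ht : tot η = 0
    · rw [ht]; simp
    · rw [Kf_zero ψ h0 η ht]; simp

/-- reflection -/
lemma refl (hS : S_TPS) (ψ : (V → ℤ) → ℝ) (μ : Measure (V → ℝ))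
    (hμ : IsMeas ψ μ) (R : (V → ℝ) → ℝ) (hR : R ∈ TP V) :
    ∫ θ, R (fun x => -θ x) ∂μ = ∫ θ, R θ ∂μ := by
  have := hμ.1
  have hs0 : ∀ η : V → ℤ, ∫ θ, Real.sin (ph η θ) ∂μ = 0 := fun η => (hμ.2 η).2
  refine key hS μ (fun θ x => -θ x) (by fun_prop) (fun η => ?_) (fun η => ?_) R hR
  · have e : (fun θ : V → ℝ => Real.cos (ph η (fun x => -θ x))) = fun θ =>
        Real.cos (ph η θ) := by
      funext θ
      rw [ph_neg, Real.cos_neg]
    rw [e]
  · have e : (fun θ : V → ℝ => Real.sin (ph η (fun x => -θ x))) = fun θ =>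
        -Real.sin (ph η θ) := by
      funext θ
      rw [ph_neg, Real.sin_neg]
    rw [e, integral_neg, hs0, neg_zero]

lemma Xf_cont (f : V → ℝ) : Continuous (Xf f) := by
  unfold Xf
  fun_prop

lemma Nf_eq (f : V → ℝ) (θ : V → ℝ) :
    Nf f θ = ∑ x, ∑ y, f x * f y * Real.cos (θ x - θ y) := by
  unfold Nf Xf Yf
  rw [_root_.sq, _root_.sq, Finset.sum_mul_sum, Finset.sum_mul_sum, ← Finset.sum_add_distrib]
  refine Finset.sum_congr rfl fun x _ => ?_
  rw [← Finset.sum_add_distrib]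
  refine Finset.sum_congr rfl fun y _ => ?_
  rw [Real.cos_sub]
  ring

lemma cr_int (ψ : (V → ℤ) → ℝ) (μ : Measure (V → ℝ)) (hμ : IsMeas ψ μ) (x y : V) :
    cr x y ψ = ∫ θ, Real.cos (θ x - θ y) ∂μ := by
  have h := (hμ.2 (dl x - dl y)).1
  have e : (fun θ : V → ℝ => Real.cos (∑ z, (((dl x - dl y) z : ℤ) : ℝ) * θ z)) =
      fun θ => Real.cos (θ x - θ y) := by
    funext θ
    have := ph_dl x y θ
    unfold ph at this
    rw [this]
  rw [e] at h
  rw [h, cr_eq]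
  rfl

lemma Nf_int (ψ : (V → ℤ) → ℝ) (μ : Measure (V → ℝ)) (hμ : IsMeas ψ μ) (f : V → ℝ) :
    ∫ θ, Nf f θ ∂μ = ∑ x, ∑ y, f x * f y * cr x y ψ := by
  have := hμ.1
  have e : (fun θ : V → ℝ => Nf f θ) = fun θ => ∑ x, ∑ y, f x * f y * Real.cos (θ x - θ y) :=
    funext fun θ => Nf_eq f θ
  have hi : ∀ x y, Integrable (fun θ : V → ℝ => f x * f y * Real.cos (θ x - θ y)) μ := fun x y =>
    (int_cos μ _ (by fun_prop)).const_mul _
  rw [e, integral_finsetSum _ fun x _ => integrable_finsetSum _ fun y _ => hi x y]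
  refine Finset.sum_congr rfl fun x _ => ?_
  rw [integral_finsetSum _ fun y _ => hi x y]
  refine Finset.sum_congr rfl fun y _ => ?_
  rw [integral_const_mul, cr_int ψ μ hμ]

lemma Xf_int (hT : S_TPB) (μ : Measure (V → ℝ)) [IsProbabilityMeasure μ] (f : V → ℝ)
    (R : (V → ℝ) → ℝ) (hR : R ∈ TP V) :
    ∫ θ, Xf f θ * R θ ^ 2 ∂μ = ∑ x, f x * ∫ θ, Real.cos (θ x) * R θ ^ 2 ∂μ := by
  have hRc : Continuous R := hT.cont R hR
  obtain ⟨C, hC⟩ := hT.bdd R hR
  have hi : ∀ x, Integrable (fun θ : V → ℝ => f x * (Real.cos (θ x) * R θ ^ 2)) μ := fun x => by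
    refine (intg μ (fun θ : V → ℝ => Real.cos (θ x) * R θ ^ 2) (by fun_prop) (C ^ 2)
      fun θ => ?_).const_mul _
    rw [abs_mul, abs_pow]
    calc |Real.cos (θ x)| * |R θ| ^ 2 ≤ 1 * C ^ 2 :=
          mul_le_mul (Real.abs_cos_le_one _) (pow_le_pow_left₀ (abs_nonneg _) (hC θ) 2)
            (by positivity) zero_le_one
      _ = C ^ 2 := one_mul _
  have e : (fun θ : V → ℝ => Xf f θ * R θ ^ 2) = fun θ =>
      ∑ x, f x * (Real.cos (θ x) * R θ ^ 2) := by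
    funext θ
    unfold Xf
    rw [Finset.sum_mul]
    exact Finset.sum_congr rfl fun x _ => by ring
  rw [e, integral_finsetSum _ fun x _ => hi x]
  refine Finset.sum_congr rfl fun x _ => ?_
  rw [integral_const_mul]

end General

section Torus

variable {d L : ℕ} [NeZero L]

lemma nnw_nonneg (x y : Fin d → ZMod L) : 0 ≤ nnw 1 x y := by
  unfold nnw
  refine Finset.sum_nonneg fun i _ => ?_
  split_ifs <;> norm_num

lemma lap_smul (t l : ℝ) (f : (Fin d → ZMod L) → ℝ) (h : ∀ x, lap f x = l * f x)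
    (x : Fin d → ZMod L) : lap (fun y => t * f y) x = l * (t * f x) := by
  have h1 : lap (fun y => t * f y) x = t * lap f x := by
    unfold lap
    rw [Finset.mul_sum]
    exact Finset.sum_congr rfl fun i _ => by ring
  rw [h1, h x]
  ring

/-- translations of the correlation function -/
lemma Kf_trans (Ψ : ((Fin d → ZMod L) → ℤ) → ℝ) (a : Fin d → ZMod L)
    (h : ∀ n n', Ψ (fun x => n (x + a)) * Ψ (fun x => n' (x + a)) = Ψ n * Ψ n')
    (η : (Fin d → ZMod L) → ℤ) : Kf Ψ (fun y => η (y - a)) = Kf Ψ η := by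
  unfold Kf
  have e1 : ∀ n : (Fin d → ZMod L) → ℤ, Ψ (n + fun y => η (y - a)) * Ψ n =
      Ψ ((fun x => n (x + a)) + η) * Ψ (fun x => n (x + a)) := by
    intro n
    rw [← h (n + fun y => η (y - a)) n]
    congr 2
    funext x
    simp
  rw [tsum_congr e1]
  exact Equiv.tsum_eq ((Equiv.addRight a).arrowCongr (Equiv.refl ℤ)).symm
    (fun m => Ψ (m + η) * Ψ m)

lemma ph_trans (a : Fin d → ZMod L) (η : (Fin d → ZMod L) → ℤ) (θ : (Fin d → ZMod L) → ℝ) :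
    ph η (fun x => θ (x + a)) = ph (fun y => η (y - a)) θ := by
  unfold ph
  refine Fintype.sum_equiv (Equiv.addRight a) _ _ fun x => ?_
  simp

/-- translations -/
lemma trans (hS : S_TPS) (Ψ : ((Fin d → ZMod L) → ℤ) → ℝ) (a : Fin d → ZMod L)
    (h : ∀ n n', Ψ (fun x => n (x + a)) * Ψ (fun x => n' (x + a)) = Ψ n * Ψ n')
    (μ : Measure ((Fin d → ZMod L) → ℝ)) (hμ : IsMeas Ψ μ)
    (R : ((Fin d → ZMod L) → ℝ) → ℝ) (hR : R ∈ TP (Fin d → ZMod L)) :
    ∫ θ, R (fun x => θ (x + a)) ∂μ = ∫ θ, R θ ∂μ := by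
  have := hμ.1
  have hc0 : ∀ η : (Fin d → ZMod L) → ℤ, ∫ θ, Real.cos (ph η θ) ∂μ = Kf Ψ η :=
    fun η => (hμ.2 η).1
  have hs0 : ∀ η : (Fin d → ZMod L) → ℤ, ∫ θ, Real.sin (ph η θ) ∂μ = 0 :=
    fun η => (hμ.2 η).2
  refine key hS μ (fun θ x => θ (x + a)) (by fun_prop) (fun η => ?_) (fun η => ?_) R hR
  · have e : (fun θ : (Fin d → ZMod L) → ℝ => Real.cos (ph η (fun x => θ (x + a)))) = fun θ =>
        Real.cos (ph (fun y => η (y - a)) θ) := by
      funext θ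
      rw [ph_trans]
    rw [e, hc0, hc0, Kf_trans Ψ a h]
  · have e : (fun θ : (Fin d → ZMod L) → ℝ => Real.sin (ph η (fun x => θ (x + a)))) = fun θ =>
        Real.sin (ph (fun y => η (y - a)) θ) := by
      funext θ
      rw [ph_trans]
    rw [e, hs0, hs0]

end Torus

theorem main (hB : S_BAS) (hM : S_MEAS) (hO : S_OPR) (hY : S_SYM) (hG : S_GD) (hI : S_IRB)
    (hS : S_TPS) (hT : S_TPB) : S_ENV := by
  intro d L _ U Ψ hL hU hΨ
  obtain ⟨hFE, hSec, hnr, hFF⟩ := hΨ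
  obtain ⟨μ, hμ⟩ := hM Ψ hFE.1 hnr
  have := hμ.1
  refine ⟨μ, ?_, fun x y => cr_int Ψ μ hμ x y⟩
  have hsym := hY d L U Ψ hU ⟨hFE, hSec, hnr, hFF⟩
  refine ⟨hμ.1, fun R hR φ => rot hS Ψ hSec μ hμ R hR φ, fun R hR => refl hS Ψ μ hμ R hR,
    fun R hR a => trans hS Ψ a (hsym.2 a) μ hμ R hR, ?_, ?_⟩
  · intro l f hl hf
    rw [Nf_int Ψ μ hμ f]
    have h := hI d L U 1 l Ψ f hL hU one_pos hl ⟨hFE, hSec, hnr, hFF⟩ hf
    rwa [div_one] at h
  · intro R hR t l f hf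
    obtain ⟨ψ₁, ψ₂, hF1, hF2, hn, -, hx, hFF2⟩ := hO U (nnw 1) Ψ μ hU nnw_nonneg
      ⟨hFE, hSec, hnr, hFF⟩ hμ R hR
    have g1 := hG d L U 1 l (fun y => t * f y) hL hU.le zero_le_one (lap_smul t l f hf) ψ₁ hF1
    have g2 := hG d L U 1 l (fun y => t * f y) hL hU.le zero_le_one (lap_smul t l f hf) ψ₂ hF2
    rw [Xf_int hT μ f R hR]
    have s1 : ∑ x, t * f x * xx x ψ₁ + ∑ x, t * f x * xx x ψ₂ =
        t * ∑ x, f x * ∫ θ, Real.cos (θ x) * R θ ^ 2 ∂μ := by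
      rw [← Finset.sum_add_distrib, Finset.mul_sum]
      refine Finset.sum_congr rfl fun x _ => ?_
      rw [← hx x]
      ring
    have s2 : ∑ x, (t * f x) ^ 2 = t ^ 2 * ∑ x, f x ^ 2 := by
      rw [Finset.mul_sum]
      exact Finset.sum_congr rfl fun x _ => by ring
    simp only [s2] at g1 g2
    obtain ⟨A1, hA1⟩ : ∃ A, A = ∑ x, t * f x * xx x ψ₁ := ⟨_, rfl⟩
    obtain ⟨A2, hA2⟩ : ∃ A, A = ∑ x, t * f x * xx x ψ₂ := ⟨_, rfl⟩
    obtain ⟨A3, hA3⟩ : ∃ A, A = ∑ x, f x * ∫ θ, Real.cos (θ x) * R θ ^ 2 ∂μ := ⟨_, rfl⟩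
    obtain ⟨F2, hf2⟩ : ∃ A, A = ∑ x, f x ^ 2 := ⟨_, rfl⟩
    rw [← hA1, ← hf2] at g1
    rw [← hA2, ← hf2] at g2
    rw [← hA1, ← hA2, ← hA3] at s1
    rw [← hA3, ← hf2, ← hn]
    rw [← hn] at hFF2
    have s3 : l * (A1 + A2) = l * (t * A3) := by rw [s1]
    linarith [g1, g2, hFF2, s3]

end Pool.Agent.N402.QL_ENV
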