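import Pool.Agent.N657.QL.Stm

/-!
# Project QL, task ROTA: averages over global rotations (helper402)
-/

set_option autoImplicit false
set_option linter.all false

namespace Pool.Agent.N402.QL_ROTA

open MeasureTheory Filter Topology
open Pool.Agent.N657.QR Pool.Agent.N657.QL

/-- the angle `2 π j / n` -/
noncomputable def ag (n j : ℕ) : ℝ := 2 * Real.pi * j / n

/-- the first coordinate of the rotated vector `(a, b)` -/
noncomputable def xj (n j : ℕ) (a b : ℝ) : ℝ := Real.cos (ag n j) * a - Real.sin (ag n j) * b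

lemma geo {n i a : ℕ} (hn : n ≠ 0) (ζ : ℂ) (hζ : IsPrimitiveRoot ζ n) (hi : i < n) (ha : a ≤ i) :
    ∑ j ∈ Finset.range n, (ζ ^ a * ζ⁻¹ ^ (i - a)) ^ j = if 2 * a = i then (n : ℂ) else 0 := by
  have hz : ζ ≠ 0 := hζ.ne_zero hn
  split_ifs with h
  · have e : ζ ^ a * ζ⁻¹ ^ (i - a) = 1 := by
      have : i - a = a := by omega
      rw [this, inv_pow]
      exact mul_inv_cancel₀ (pow_ne_zero _ hz)
    rw [e]
    simp
  · have hne : ζ ^ a * ζ⁻¹ ^ (i - a) ≠ 1 := by
      intro hcon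
      rw [inv_pow, mul_inv_eq_one₀ (pow_ne_zero _ hz)] at hcon
      have := hζ.pow_inj (by omega) (by omega) hcon
      omega
    have hone : (ζ ^ a * ζ⁻¹ ^ (i - a)) ^ n = 1 := by
      rw [mul_pow, ← pow_mul, ← pow_mul, mul_comm a n, mul_comm (i - a) n, pow_mul, pow_mul,
        inv_pow, hζ.pow_eq_one]
      simp
    have h1 := geom_sum_mul (ζ ^ a * ζ⁻¹ ^ (i - a)) n
    rw [hone, sub_self] at h1
    exact (mul_eq_zero.1 h1).resolve_right (sub_ne_zero.2 hne)

/-- the power sums in complex form -/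
lemma powsum {n i : ℕ} (hn : n ≠ 0) (hi : i < n) (a b : ℝ) :
    ((∑ j ∈ Finset.range n, xj n j a b ^ i : ℝ) : ℂ) =
      ∑ k ∈ Finset.range (i + 1), ((a : ℂ) + b * Complex.I) ^ k *
        ((a : ℂ) - b * Complex.I) ^ (i - k) * (i.choose k : ℂ) / 2 ^ i *
          (if 2 * k = i then (n : ℂ) else 0) := by
  have hζ := Complex.isPrimitiveRoot_exp n hn
  obtain ⟨ζ, hζe⟩ : ∃ ζ : ℂ, ζ = Complex.exp (2 * Real.pi * Complex.I / n) := ⟨_, rfl⟩
  rw [← hζe] at hζ
  have hz : ζ ≠ 0 := hζ.ne_zero hn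
  have hpow : ∀ j : ℕ, ζ ^ j = Real.cos (ag n j) + Real.sin (ag n j) * Complex.I := by
    intro j
    rw [hζe, ← Complex.exp_nat_mul]
    have : (j : ℂ) * (2 * Real.pi * Complex.I / n) = ((ag n j : ℝ) : ℂ) * Complex.I := by
      unfold ag
      push_cast
      ring
    rw [this, Complex.exp_mul_I, Complex.ofReal_cos, Complex.ofReal_sin]
  have hinv : ∀ j : ℕ, ζ⁻¹ ^ j = Real.cos (ag n j) - Real.sin (ag n j) * Complex.I := by
    intro j
    have h1 : ζ ^ j * (Real.cos (ag n j) - Real.sin (ag n j) * Complex.I) = 1 := by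
      rw [hpow j]
      have : ((Real.cos (ag n j) : ℝ) : ℂ) ^ 2 + ((Real.sin (ag n j) : ℝ) : ℂ) ^ 2 = 1 := by
        have h := Real.cos_sq_add_sin_sq (ag n j)
        exact_mod_cast h
      calc ((Real.cos (ag n j) : ℂ) + Real.sin (ag n j) * Complex.I) *
          (Real.cos (ag n j) - Real.sin (ag n j) * Complex.I) =
          (Real.cos (ag n j) : ℂ) ^ 2 - (Real.sin (ag n j) : ℂ) ^ 2 * Complex.I ^ 2 := by ring
        _ = 1 := by rw [Complex.I_sq]; linear_combination this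
    rw [inv_pow]
    exact inv_eq_of_mul_eq_one_right h1
  have hx : ∀ j : ℕ, ((xj n j a b : ℝ) : ℂ) =
      (ζ ^ j * ((a : ℂ) + b * Complex.I) + ζ⁻¹ ^ j * ((a : ℂ) - b * Complex.I)) / 2 := by
    intro j
    rw [hpow, hinv]
    unfold xj
    push_cast
    linear_combination (-(Complex.sin ((ag n j : ℝ) : ℂ)) * b) * Complex.I_sq
  have hterm : ∀ j : ℕ, ((xj n j a b : ℝ) : ℂ) ^ i = ∑ k ∈ Finset.range (i + 1),
      ((a : ℂ) + b * Complex.I) ^ k * ((a : ℂ) - b * Complex.I) ^ (i - k) * (i.choose k : ℂ) /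
        2 ^ i * (ζ ^ k * ζ⁻¹ ^ (i - k)) ^ j := by
    intro j
    rw [hx, div_pow, add_pow, Finset.sum_div]
    refine Finset.sum_congr rfl fun k _ => ?_
    rw [mul_pow, mul_pow, mul_pow, ← pow_mul, ← pow_mul, ← pow_mul, ← pow_mul, mul_comm k j,
      mul_comm (i - k) j]
    ring
  push_cast
  rw [Finset.sum_congr rfl fun j _ => hterm j, Finset.sum_comm]
  refine Finset.sum_congr rfl fun k hk => ?_
  rw [← Finset.mul_sum, geo hn ζ hζ hi (by
    rw [Finset.mem_range] at hk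
    omega)]

lemma A_even {n l : ℕ} (hl : 2 * l < n) (a b : ℝ) :
    ∑ j ∈ Finset.range n, xj n j a b ^ (2 * l) =
      n * (((2 * l).choose l : ℝ) / 4 ^ l * (a ^ 2 + b ^ 2) ^ l) := by
  have h := (powsum (by omega) hl a b).trans (Finset.sum_eq_single l
    (fun k _ hk => by rw [if_neg (by omega), mul_zero])
    (fun hk => absurd (Finset.mem_range.2 (by omega)) hk))
  · have e : ((a : ℂ) + b * Complex.I) ^ l * ((a : ℂ) - b * Complex.I) ^ (2 * l - l) =
        (((a ^ 2 + b ^ 2) ^ l : ℝ) : ℂ) := by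
      have h1 : 2 * l - l = l := by omega
      rw [h1, ← mul_pow]
      push_cast
      congr 1
      have : ((a : ℂ) + b * Complex.I) * (a - b * Complex.I) = a ^ 2 - b ^ 2 * Complex.I ^ 2 := by
        ring
      rw [this, Complex.I_sq]
      ring
    rw [e, if_pos rfl] at h
    have h4 : (2 : ℂ) ^ (2 * l) = 4 ^ l := by
      rw [pow_mul]; norm_num
    rw [h4] at h
    have h5 : ((∑ j ∈ Finset.range n, xj n j a b ^ (2 * l) : ℝ) : ℂ) =
        ((n * (((2 * l).choose l : ℝ) / 4 ^ l * (a ^ 2 + b ^ 2) ^ l) : ℝ) : ℂ) := by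
      rw [h]
      push_cast
      ring
    exact_mod_cast h5

lemma A_odd {n l : ℕ} (hl : 2 * l + 1 < n) (a b : ℝ) :
    ∑ j ∈ Finset.range n, xj n j a b ^ (2 * l + 1) = 0 := by
  have h := (powsum (by omega) hl a b).trans (Finset.sum_eq_zero
    fun k _ => by rw [if_neg (by omega), mul_zero])
  exact_mod_cast h

lemma xj_lin (n j : ℕ) (a b c e t : ℝ) :
    xj n j (a + t * c) (b + t * e) = xj n j a b + t * xj n j c e := by
  unfold xj
  ring

lemma hd (n i : ℕ) (a b c e : ℝ) :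
    HasDerivAt (fun t : ℝ => ∑ j ∈ Finset.range n, xj n j (a + t * c) (b + t * e) ^ (i + 1))
      (∑ j ∈ Finset.range n, ((i : ℝ) + 1) * xj n j a b ^ i * xj n j c e) 0 := by
  have h1 : ∀ j ∈ Finset.range n, HasDerivAt
      (fun t : ℝ => xj n j (a + t * c) (b + t * e) ^ (i + 1))
      (((i : ℝ) + 1) * xj n j a b ^ i * xj n j c e) 0 := by
    intro j _
    have e1 : (fun t : ℝ => xj n j (a + t * c) (b + t * e) ^ (i + 1)) =
        fun t => (xj n j a b + t * xj n j c e) ^ (i + 1) := by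
      funext t
      rw [xj_lin]
    rw [e1]
    have h2 : HasDerivAt (fun t : ℝ => xj n j a b + t * xj n j c e) (xj n j c e) 0 := by
      have h := ((hasDerivAt_id (0 : ℝ)).mul_const (xj n j c e)).const_add (xj n j a b)
      rw [one_mul] at h
      exact h
    refine (h2.fun_pow (i + 1)).congr_deriv ?_
    rw [Nat.add_sub_cancel, zero_mul, add_zero]
    push_cast
    ring
  exact HasDerivAt.fun_sum h1

lemma B_odd {n l : ℕ} (hl : 2 * l + 2 < n) (a b c e : ℝ) :
    ∑ j ∈ Finset.range n, xj n j c e * xj n j a b ^ (2 * l + 1) =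
      n * (((2 * l + 2).choose (l + 1) : ℝ) / 4 ^ (l + 1) * (a ^ 2 + b ^ 2) ^ l *
        (a * c + b * e)) := by
  have h1 := hd n (2 * l + 1) a b c e
  have e1 : (fun t : ℝ => ∑ j ∈ Finset.range n, xj n j (a + t * c) (b + t * e) ^ (2 * l + 1 + 1)) =
      fun t => n * (((2 * (l + 1)).choose (l + 1) : ℝ) / 4 ^ (l + 1)) *
        ((a + t * c) ^ 2 + (b + t * e) ^ 2) ^ (l + 1) := by
    funext t
    have := A_even (n := n) (l := l + 1) (by omega) (a + t * c) (b + t * e)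
    rw [show 2 * l + 1 + 1 = 2 * (l + 1) by ring, this]
    ring
  rw [e1] at h1
  have h2 : HasDerivAt (fun t : ℝ => (a + t * c) ^ 2 + (b + t * e) ^ 2)
      (2 * (a * c + b * e)) 0 := by
    have ha : HasDerivAt (fun t : ℝ => a + t * c) c 0 := by
      have h := ((hasDerivAt_id (0 : ℝ)).mul_const c).const_add a
      rw [one_mul] at h
      exact h
    have hb : HasDerivAt (fun t : ℝ => b + t * e) e 0 := by
      have h := ((hasDerivAt_id (0 : ℝ)).mul_const e).const_add b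
      rw [one_mul] at h
      exact h
    refine ((ha.fun_pow 2).fun_add (hb.fun_pow 2)).congr_deriv ?_
    push_cast
    ring
  have h3 := (h2.fun_pow (l + 1)).const_mul (n * (((2 * (l + 1)).choose (l + 1) : ℝ) / 4 ^ (l + 1)))
  have h4 := h1.unique h3
  simp only [zero_mul, add_zero] at h4
  have h5 : ∑ j ∈ Finset.range n, (((2 * l + 1 : ℕ) : ℝ) + 1) * xj n j a b ^ (2 * l + 1) *
      xj n j c e = (2 * ((l : ℝ) + 1)) * ∑ j ∈ Finset.range n, xj n j c e *
        xj n j a b ^ (2 * l + 1) := by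
    rw [Finset.mul_sum]
    refine Finset.sum_congr rfl fun j _ => ?_
    push_cast
    ring
  rw [h5] at h4
  have h6 : (2 * ((l : ℝ) + 1)) ≠ 0 := by positivity
  apply mul_left_cancel₀ h6
  rw [h4]
  have h7 : l + 1 - 1 = l := by omega
  rw [h7, show 2 * (l + 1) = 2 * l + 2 by ring]
  push_cast
  ring

lemma B_even {n l : ℕ} (hl : 2 * l + 1 < n) (a b c e : ℝ) :
    ∑ j ∈ Finset.range n, xj n j c e * xj n j a b ^ (2 * l) = 0 := by
  have h1 := hd n (2 * l) a b c e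
  have e1 : (fun t : ℝ => ∑ j ∈ Finset.range n, xj n j (a + t * c) (b + t * e) ^ (2 * l + 1)) =
      fun _ => 0 := by
    funext t
    exact A_odd (n := n) (l := l) hl (a + t * c) (b + t * e)
  rw [e1] at h1
  have h4 := h1.unique (hasDerivAt_const (0 : ℝ) (0 : ℝ))
  have h5 : ∑ j ∈ Finset.range n, (((2 * l : ℕ) : ℝ) + 1) * xj n j a b ^ (2 * l) *
      xj n j c e = (2 * (l : ℝ) + 1) * ∑ j ∈ Finset.range n, xj n j c e *
        xj n j a b ^ (2 * l) := by
    rw [Finset.mul_sum]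
    refine Finset.sum_congr rfl fun j _ => ?_
    push_cast
    ring
  rw [h5] at h4
  have h6 : (2 * (l : ℝ) + 1) ≠ 0 := by positivity
  exact (mul_eq_zero.1 h4).resolve_left h6

lemma sum_even (M : ℕ) (f : ℕ → ℝ) (h : ∀ l, l < M → f (2 * l + 1) = 0) :
    ∑ i ∈ Finset.range (2 * M + 1), f i = ∑ l ∈ Finset.range (M + 1), f (2 * l) := by
  induction M with
  | zero => simp
  | succ M ih =>
    rw [show 2 * (M + 1) + 1 = 2 * M + 1 + 1 + 1 by ring, Finset.sum_range_succ,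
      Finset.sum_range_succ, ih fun l hl => h l (by omega), Finset.sum_range_succ _ (M + 1),
      h M (by omega), add_zero]
    rw [show 2 * M + 1 + 1 = 2 * (M + 1) by ring]

lemma sum_odd (M : ℕ) (f : ℕ → ℝ) (h : ∀ l, l ≤ M → f (2 * l) = 0) :
    ∑ i ∈ Finset.range (2 * M + 1), f i = ∑ l ∈ Finset.range M, f (2 * l + 1) := by
  induction M with
  | zero =>
    have := h 0 le_rfl
    simpa using this
  | succ M ih =>
    rw [show 2 * (M + 1) + 1 = 2 * M + 1 + 1 + 1 by ring, Finset.sum_range_succ,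
      Finset.sum_range_succ, ih fun l hl => h l (by omega), Finset.sum_range_succ _ M]
    have := h (M + 1) le_rfl
    rw [show 2 * (M + 1) = 2 * M + 1 + 1 by ring] at this
    rw [this, add_zero]

/-- the mean of `(1 + x)^(2M)` -/
lemma totA {n M : ℕ} (hM : 2 * M < n) (a b : ℝ) :
    ∑ j ∈ Finset.range n, (1 + xj n j a b) ^ (2 * M) = n * AM M (a ^ 2 + b ^ 2) := by
  have e : ∀ j, (1 + xj n j a b) ^ (2 * M) = ∑ i ∈ Finset.range (2 * M + 1),
      ((2 * M).choose i : ℝ) * xj n j a b ^ i := by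
    intro j
    rw [add_comm, add_pow]
    exact Finset.sum_congr rfl fun i _ => by ring
  rw [Finset.sum_congr rfl fun j _ => e j, Finset.sum_comm]
  simp only [← Finset.mul_sum]
  rw [sum_even M (fun i => ((2 * M).choose i : ℝ) * ∑ j ∈ Finset.range n, xj n j a b ^ i)
    fun l hl => by rw [A_odd (by omega), mul_zero]]
  unfold AM
  rw [Finset.mul_sum]
  refine Finset.sum_congr rfl fun l hl => ?_
  rw [Finset.mem_range] at hl
  rw [A_even (by omega)]
  ring

/-- the mean of `y (1 + x)^(2M)` -/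
lemma totB {n M : ℕ} (hM : 2 * M + 1 < n) (a b c e : ℝ) :
    ∑ j ∈ Finset.range n, xj n j c e * (1 + xj n j a b) ^ (2 * M) =
      n * (cM M (a ^ 2 + b ^ 2) * (a * c + b * e)) := by
  have e1 : ∀ j, xj n j c e * (1 + xj n j a b) ^ (2 * M) = ∑ i ∈ Finset.range (2 * M + 1),
      ((2 * M).choose i : ℝ) * (xj n j c e * xj n j a b ^ i) := by
    intro j
    rw [add_comm, add_pow, Finset.mul_sum]
    exact Finset.sum_congr rfl fun i _ => by ring
  rw [Finset.sum_congr rfl fun j _ => e1 j, Finset.sum_comm]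
  simp only [← Finset.mul_sum]
  rw [sum_odd M (fun i => ((2 * M).choose i : ℝ) * ∑ j ∈ Finset.range n, xj n j c e *
    xj n j a b ^ i) fun l hl => by rw [B_even (by omega), mul_zero]]
  unfold cM
  rw [Finset.sum_mul, Finset.mul_sum]
  refine Finset.sum_congr rfl fun l hl => ?_
  rw [Finset.mem_range] at hl
  rw [B_odd (by omega)]
  ring

section General

variable {V : Type} [Fintype V] [DecidableEq V]

/-- averages over rotations -/
lemma avg (hT : S_TPB) (μ : Measure (V → ℝ)) [IsProbabilityMeasure μ]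
    (hrot : ∀ R ∈ TP V, ∀ φ : ℝ, ∫ θ, R (fun x => θ x + φ) ∂μ = ∫ θ, R θ ∂μ)
    (R G : (V → ℝ) → ℝ) (hR : R ∈ TP V) (n : ℕ) (hn : 0 < n)
    (h : ∀ θ, ∑ j ∈ Finset.range n, R (fun x => θ x + ag n j) = n * G θ) :
    ∫ θ, R θ ∂μ = ∫ θ, G θ ∂μ := by
  obtain ⟨C, hC⟩ := hT.bdd R hR
  have hc := hT.cont R hR
  have hi : ∀ j ∈ Finset.range n, Integrable (fun θ : V → ℝ => R (fun x => θ x + ag n j)) μ :=
    fun j _ => Integrable.of_bound (hc.comp (by fun_prop)).aestronglyMeasurable C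
      (ae_of_all _ fun θ => by
        rw [Real.norm_eq_abs]
        exact hC _)
  have h1 : (n : ℝ) * ∫ θ, R θ ∂μ = (n : ℝ) * ∫ θ, G θ ∂μ := by
    calc (n : ℝ) * ∫ θ, R θ ∂μ = ∑ j ∈ Finset.range n, ∫ θ, R θ ∂μ := by
          rw [Finset.sum_const, Finset.card_range, nsmul_eq_mul]
      _ = ∑ j ∈ Finset.range n, ∫ θ, R (fun x => θ x + ag n j) ∂μ :=
          Finset.sum_congr rfl fun j _ => (hrot R hR (ag n j)).symm
      _ = ∫ θ, ∑ j ∈ Finset.range n, R (fun x => θ x + ag n j) ∂μ :=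
          (integral_finsetSum _ hi).symm
      _ = ∫ θ, (n : ℝ) * G θ ∂μ := by
          congr 1
          funext θ
          exact h θ
      _ = (n : ℝ) * ∫ θ, G θ ∂μ := integral_const_mul _ _
  have hn' : (n : ℝ) ≠ 0 := by
    have : 0 < (n : ℝ) := by exact_mod_cast hn
    exact this.ne'
  exact mul_left_cancel₀ hn' h1

lemma mem1 (hT : S_TPB) (M : ℕ) : (fun θ : V → ℝ => (1 + mx θ) ^ (2 * M)) ∈ TP V :=
  (TP V).pow_mem ((TP V).add_mem (TP V).one_mem (hT.mem (fun _ => 0)).2.2.1) _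

lemma mem2 (hT : S_TPB) (M : ℕ) : (fun θ : V → ℝ => (1 + my θ) ^ (2 * M)) ∈ TP V :=
  (TP V).pow_mem ((TP V).add_mem (TP V).one_mem (hT.mem (fun _ => 0)).2.2.2.1) _

end General

theorem main (hT : S_TPB) : S_ROTA := by
  intro d L _ U μ hμ M f
  have := hμ.prob
  have hn : 0 < 2 * M + 3 := by omega
  have hmxj : ∀ (θ : (Fin d → ZMod L) → ℝ) (j : ℕ), mx (fun x => θ x + ag (2 * M + 3) j) =
      xj (2 * M + 3) j (mx θ) (my θ) := fun θ j => by
    obtain ⟨-, -, h3, -⟩ := hT.rot f θ (ag (2 * M + 3) j)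
    rw [h3]
    unfold xj
    ring
  have hmyj : ∀ (θ : (Fin d → ZMod L) → ℝ) (j : ℕ), my (fun x => θ x + ag (2 * M + 3) j) =
      xj (2 * M + 3) j (my θ) (-mx θ) := fun θ j => by
    obtain ⟨-, -, -, h4, -⟩ := hT.rot f θ (ag (2 * M + 3) j)
    rw [h4]
    unfold xj
    ring
  have hXj : ∀ (θ : (Fin d → ZMod L) → ℝ) (j : ℕ), Xf f (fun x => θ x + ag (2 * M + 3) j) =
      xj (2 * M + 3) j (Xf f θ) (Yf f θ) := fun θ j => by
    obtain ⟨h1, -⟩ := hT.rot f θ (ag (2 * M + 3) j)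
    rw [h1]
    rfl
  have hLj : ∀ (θ : (Fin d → ZMod L) → ℝ) (j : ℕ), Lf f (fun x => θ x + ag (2 * M + 3) j) =
      Lf f θ := fun θ j => by
    obtain ⟨-, -, -, -, -, -, h7, -⟩ := hT.rot f θ (ag (2 * M + 3) j)
    exact h7
  have hTj : ∀ (θ : (Fin d → ZMod L) → ℝ) (j : ℕ), Tf f (fun x => θ x + ag (2 * M + 3) j) =
      Tf f θ := fun θ j => by
    obtain ⟨-, -, -, -, -, -, -, h8⟩ := hT.rot f θ (ag (2 * M + 3) j)
    exact h8
  have hmem := hT.mem f
  refine ⟨?_, ?_, ?_, ?_⟩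
  · refine avg hT μ hμ.rot _ _ (mem1 hT M) (2 * M + 3) hn fun θ => ?_
    simp only [hmxj]
    rw [totA (by omega)]
    rfl
  · refine avg hT μ hμ.rot _ _ (mem2 hT M) (2 * M + 3) hn fun θ => ?_
    simp only [hmyj]
    rw [totA (by omega)]
    unfold r2
    rw [show my θ ^ 2 + (-mx θ) ^ 2 = mx θ ^ 2 + my θ ^ 2 by ring]
  · refine avg hT μ hμ.rot (fun θ => Xf f θ * Lf f θ * (1 + mx θ) ^ (2 * M)) _
      ((TP _).mul_mem ((TP _).mul_mem hmem.1 hmem.2.2.2.2.2.2.1) (mem1 hT M))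
      (2 * M + 3) hn fun θ => ?_
    simp only [hmxj, hXj, hLj]
    have e : ∀ j, xj (2 * M + 3) j (Xf f θ) (Yf f θ) * Lf f θ *
        (1 + xj (2 * M + 3) j (mx θ) (my θ)) ^ (2 * M) = Lf f θ *
          (xj (2 * M + 3) j (Xf f θ) (Yf f θ) *
            (1 + xj (2 * M + 3) j (mx θ) (my θ)) ^ (2 * M)) := fun j => by ring
    rw [Finset.sum_congr rfl fun j _ => e j, ← Finset.mul_sum, totB (by omega)]
    unfold r2 Lf
    ring
  · rw [← integral_neg]
    refine avg hT μ hμ.rot (fun θ => Xf f θ * Tf f θ * (1 + my θ) ^ (2 * M)) _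
      ((TP _).mul_mem ((TP _).mul_mem hmem.1 hmem.2.2.2.2.2.2.2) (mem2 hT M))
      (2 * M + 3) hn fun θ => ?_
    simp only [hmyj, hXj, hTj]
    have e : ∀ j, xj (2 * M + 3) j (Xf f θ) (Yf f θ) * Tf f θ *
        (1 + xj (2 * M + 3) j (my θ) (-mx θ)) ^ (2 * M) = Tf f θ *
          (xj (2 * M + 3) j (Xf f θ) (Yf f θ) *
            (1 + xj (2 * M + 3) j (my θ) (-mx θ)) ^ (2 * M)) := fun j => by ring
    rw [Finset.sum_congr rfl fun j _ => e j, ← Finset.mul_sum, totB (by omega)]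
    unfold r2 Tf
    rw [show my θ ^ 2 + (-mx θ) ^ 2 = mx θ ^ 2 + my θ ^ 2 by ring]
    ring

end Pool.Agent.N402.QL_ROTA
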