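import Pool.Agent.N657.QL.Stm

/-!
# Project QL, task SUMQ: a priori bounds of the moments of the depletion (helper402)
-/

set_option autoImplicit false
set_option linter.all false

namespace Pool.Agent.N402.QL_SUMQ

open MeasureTheory Filter Topology
open Pool.Agent.N657.QR Pool.Agent.N657.QL

section General

variable {V : Type} [Fintype V] [DecidableEq V]

lemma tpi (hT : S_TPB) (μ : Measure (V → ℝ)) [IsProbabilityMeasure μ] (R : (V → ℝ) → ℝ)
    (hR : R ∈ TP V) : Integrable R μ := by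
  obtain ⟨C, hC⟩ := hT.bdd R hR
  exact Integrable.of_bound (hT.cont R hR).aestronglyMeasurable C (ae_of_all _ fun θ => by
    rw [Real.norm_eq_abs]
    exact hC θ)

lemma memD (hT : S_TPB) : (fun θ : V → ℝ => 1 - r2 θ) ∈ TP V :=
  (TP V).sub_mem (TP V).one_mem ((hT.mem (fun _ => 0)).2.2.2.2.1)

lemma memDm (hT : S_TPB) (m : ℕ) : (fun θ : V → ℝ => (1 - r2 θ) ^ m) ∈ TP V :=
  (TP V).pow_mem (memD hT) m

lemma memXD (hT : S_TPB) (f : V → ℝ) (m : ℕ) :
    (fun θ : V → ℝ => Xf f θ ^ 2 * (1 - r2 θ) ^ m) ∈ TP V :=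
  (TP V).mul_mem ((TP V).pow_mem (hT.mem f).1 2) (memDm hT m)

lemma memYD (hT : S_TPB) (f : V → ℝ) (m : ℕ) :
    (fun θ : V → ℝ => Yf f θ ^ 2 * (1 - r2 θ) ^ m) ∈ TP V :=
  (TP V).mul_mem ((TP V).pow_mem (hT.mem f).2.1 2) (memDm hT m)

lemma memND (hT : S_TPB) (f : V → ℝ) (m : ℕ) :
    (fun θ : V → ℝ => Nf f θ * (1 - r2 θ) ^ m) ∈ TP V :=
  (TP V).mul_mem (hT.mem f).2.2.2.2.2.1 (memDm hT m)

/-- rotation by a right angle -/
lemma rotXY (hT : S_TPB) (μ : Measure (V → ℝ)) [IsProbabilityMeasure μ]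
    (hrot : ∀ R ∈ TP V, ∀ φ : ℝ, ∫ θ, R (fun x => θ x + φ) ∂μ = ∫ θ, R θ ∂μ) (f : V → ℝ) :
    ∫ θ, Nf f θ * (1 - r2 θ) ^ 2 ∂μ = 2 * ∫ θ, Xf f θ ^ 2 * (1 - r2 θ) ^ 2 ∂μ := by
  have h := hrot _ (memXD hT f 2) (Real.pi / 2)
  have e : (fun θ : V → ℝ => Xf f (fun x => θ x + Real.pi / 2) ^ 2 *
      (1 - r2 (fun x => θ x + Real.pi / 2)) ^ 2) = fun θ => Yf f θ ^ 2 * (1 - r2 θ) ^ 2 := by
    funext θ
    obtain ⟨h1, -, -, -, h5, -⟩ := hT.rot f θ (Real.pi / 2)
    rw [h1, h5, Real.cos_pi_div_two, Real.sin_pi_div_two]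
    ring
  have h' : ∫ θ, Yf f θ ^ 2 * (1 - r2 θ) ^ 2 ∂μ = ∫ θ, Xf f θ ^ 2 * (1 - r2 θ) ^ 2 ∂μ := by
    rw [← e]
    exact h
  have e2 : (fun θ : V → ℝ => Nf f θ * (1 - r2 θ) ^ 2) = fun θ =>
      Xf f θ ^ 2 * (1 - r2 θ) ^ 2 + Yf f θ ^ 2 * (1 - r2 θ) ^ 2 := by
    funext θ
    unfold Nf
    ring
  rw [e2, integral_add (tpi hT μ _ (memXD hT f 2)) (tpi hT μ _ (memYD hT f 2)), h']
  ring

end General

section Torus

variable {d L : ℕ} [NeZero L]

/-- the integrated Plancherel formula -/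
lemma plan (hT : S_TPB) (hP : S_PLA) (μ : Measure ((Fin d → ZMod L) → ℝ))
    [IsProbabilityMeasure μ] (m : ℕ) :
    (Fintype.card (Fin d → ZMod L) : ℝ) ^ 2 * ∫ θ, (1 - r2 θ) ^ (m + 1) ∂μ =
      ∑ k ∈ (Finset.univ : Finset (Fin d → ZMod L)).erase 0,
        ((∫ θ, Nf (ck k) θ * (1 - r2 θ) ^ m ∂μ) + ∫ θ, Nf (sk k) θ * (1 - r2 θ) ^ m ∂μ) := by
  have hi : ∀ k ∈ (Finset.univ : Finset (Fin d → ZMod L)).erase 0,
      Integrable (fun θ => Nf (ck k) θ * (1 - r2 θ) ^ m + Nf (sk k) θ * (1 - r2 θ) ^ m) μ :=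
    fun k _ => (tpi hT μ _ (memND hT (ck k) m)).add (tpi hT μ _ (memND hT (sk k) m))
  have e : (fun θ => (Fintype.card (Fin d → ZMod L) : ℝ) ^ 2 * (1 - r2 θ) ^ (m + 1)) = fun θ =>
      ∑ k ∈ (Finset.univ : Finset (Fin d → ZMod L)).erase 0,
        (Nf (ck k) θ * (1 - r2 θ) ^ m + Nf (sk k) θ * (1 - r2 θ) ^ m) := by
    funext θ
    have h := hP.planch d L θ
    calc (Fintype.card (Fin d → ZMod L) : ℝ) ^ 2 * (1 - r2 θ) ^ (m + 1) =
        ((Fintype.card (Fin d → ZMod L) : ℝ) ^ 2 * (1 - r2 θ)) * (1 - r2 θ) ^ m := by ring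
      _ = _ := by
        rw [← h, Finset.sum_mul]
        exact Finset.sum_congr rfl fun k _ => by ring
  rw [← integral_const_mul, e, integral_finsetSum _ hi]
  exact Finset.sum_congr rfl fun k _ =>
    integral_add (tpi hT μ _ (memND hT (ck k) m)) (tpi hT μ _ (memND hT (sk k) m))

lemma card_eq : (Fintype.card (Fin d → ZMod L) : ℝ) = (L : ℝ) ^ d := by
  rw [Fintype.card_fun, ZMod.card, Fintype.card_fin]
  push_cast
  ring

end Torus

/-- Cauchy-Schwarz -/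
lemma cs {A a1 a2 b : ℝ} (hA : 0 < A) (h1 : a1 ≤ A) (h : ∀ t : ℝ, 0 ≤ b - 2 * t * a2 + t ^ 2 * a1) :
    a2 ^ 2 ≤ A * b := by
  have h2 := h (a2 / A)
  have h3 : (a2 / A) ^ 2 * a1 ≤ (a2 / A) ^ 2 * A := mul_le_mul_of_nonneg_left h1 (sq_nonneg _)
  have h4 : (a2 / A) ^ 2 * A = a2 ^ 2 / A := by field_simp
  have h5 : 2 * (a2 / A) * a2 = 2 * (a2 ^ 2 / A) := by ring
  rw [h5] at h2
  have h6 : a2 ^ 2 / A ≤ b := by linarith
  rw [div_le_iff₀ hA] at h6
  linarith

theorem main (hT : S_TPB) (hQ : S_SQ) (hP : S_PLA) (hL : Pool.Agent.N657.QR.S_LAT) : S_SUMQ := by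
  intro d hd
  obtain ⟨C1, hC1, hlat⟩ := hL d hd
  obtain ⟨C, hC, hsq⟩ := hQ
  obtain ⟨E, hE⟩ : ∃ E : ℝ, E = C * C1 + 3 ^ d := ⟨_, rfl⟩
  have hE0 : 0 < E := by rw [hE]; positivity
  refine ⟨C1 + 2 * C * C1 ^ 2 + 1, by positivity, fun U hU hU1 => ?_⟩
  refine ⟨⌈C1 * E * Real.sqrt U / U ^ 2⌉₊ + 1, fun L _ hLL μ hμ => ?_⟩
  have hprob := hμ.prob
  obtain ⟨W, hW⟩ : ∃ W : ℝ, W = (Fintype.card (Fin d → ZMod L) : ℝ) := ⟨_, rfl⟩
  have hLpos : 0 < L := Nat.pos_of_ne_zero (NeZero.ne L)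
  have hL1 : (1 : ℝ) ≤ L := by exact_mod_cast hLpos
  have hWL : W = (L : ℝ) ^ d := by rw [hW]; exact card_eq
  have hW2 : (L : ℝ) ^ 2 ≤ W := by rw [hWL]; exact pow_le_pow_right₀ hL1 hd
  have hW0 : 0 < W := lt_of_lt_of_le (by positivity) hW2
  have hs0 : 0 < Real.sqrt U := Real.sqrt_pos.2 hU
  have hs1 : Real.sqrt U ≤ 1 := by rw [Real.sqrt_le_one]; exact hU1
  have hlam : ∀ k : Fin d → ZMod L, k ≠ 0 → 16 / (L : ℝ) ^ 2 ≤ lam k := fun k hk =>
    hP.low d L k hk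
  have hlam0 : ∀ k : Fin d → ZMod L, k ≠ 0 → 0 < lam k := fun k hk =>
    lt_of_lt_of_le (by positivity) (hlam k hk)
  have hsl : ∀ k : Fin d → ZMod L, k ≠ 0 → 4 / (L : ℝ) ≤ Real.sqrt (lam k) := fun k hk => by
    apply Real.le_sqrt_of_sq_le
    refine le_trans (le_of_eq ?_) (hlam k hk)
    rw [div_pow]
    norm_num
  have hnorm : ∀ k : Fin d → ZMod L, (∑ x, ck k x ^ 2) + ∑ x, sk k x ^ 2 = W := fun k => by
    rw [hW]; exact hP.norm d L k
  have hck0 : ∀ k : Fin d → ZMod L, 0 ≤ ∑ x, ck k x ^ 2 := fun k =>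
    Finset.sum_nonneg fun x _ => sq_nonneg _
  have hsk0 : ∀ k : Fin d → ZMod L, 0 ≤ ∑ x, sk k x ^ 2 := fun k =>
    Finset.sum_nonneg fun x _ => sq_nonneg _
  have hr2 : ∀ θ : (Fin d → ZMod L) → ℝ, 0 ≤ 1 - r2 θ ∧ 1 - r2 θ ≤ 1 := fun θ => by
    obtain ⟨h1, h2, -⟩ := hT.bounds (fun _ => 0) θ
    exact ⟨by linarith, by linarith⟩
  have hNf0 : ∀ (f : (Fin d → ZMod L) → ℝ) θ, 0 ≤ Nf f θ := fun f θ => by
    unfold Nf; positivity
  -- the sum of the eigenvalues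
  obtain ⟨Sg, hSg⟩ : ∃ Sg : ℝ, Sg = ∑ k ∈ (Finset.univ : Finset (Fin d → ZMod L)).erase 0,
    1 / Real.sqrt (lam k) := ⟨_, rfl⟩
  have hSg1 : Sg ≤ C1 * W := by rw [hSg, hW]; exact hlat L
  have hSg0 : 0 ≤ Sg := by
    rw [hSg]
    exact Finset.sum_nonneg fun k _ => by positivity
  -- one mode
  have hone : ∀ k : Fin d → ZMod L, k ≠ 0 →
      (∫ θ, Nf (ck k) θ ∂μ) + ∫ θ, Nf (sk k) θ ∂μ ≤ Real.sqrt U * W * (1 / Real.sqrt (lam k)) := by
    intro k hk
    have h1 := hμ.irb (lam k) (ck k) (hlam0 k hk) fun x => (hP.lapc d L k x).1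
    have h2 := hμ.irb (lam k) (sk k) (hlam0 k hk) fun x => (hP.lapc d L k x).2
    have h3 := hnorm k
    calc (∫ θ, Nf (ck k) θ ∂μ) + ∫ θ, Nf (sk k) θ ∂μ ≤
        Real.sqrt U / Real.sqrt (lam k) * ∑ x, ck k x ^ 2 +
          Real.sqrt U / Real.sqrt (lam k) * ∑ x, sk k x ^ 2 := add_le_add h1 h2
      _ = Real.sqrt U / Real.sqrt (lam k) * ((∑ x, ck k x ^ 2) + ∑ x, sk k x ^ 2) := by ring
      _ = _ := by rw [h3]; ring
  -- the first moment
  have ha1 : a1 μ ≤ C1 * Real.sqrt U := by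
    have h := plan hT hP μ 0
    simp only [pow_zero, mul_one, zero_add, pow_one] at h
    rw [← hW] at h
    have h2 : W ^ 2 * a1 μ ≤ Real.sqrt U * W * Sg := by
      unfold a1
      rw [h, hSg, Finset.mul_sum]
      exact Finset.sum_le_sum fun k hk => hone k (Finset.ne_of_mem_erase hk)
    have h3 : W ^ 2 * a1 μ ≤ W ^ 2 * (C1 * Real.sqrt U) := by
      calc W ^ 2 * a1 μ ≤ Real.sqrt U * W * Sg := h2
        _ ≤ Real.sqrt U * W * (C1 * W) := by gcongr
        _ = _ := by ring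
    exact le_of_mul_le_mul_left h3 (by positivity)
  have ha20 : 0 ≤ a2 μ := by
    unfold a2
    exact integral_nonneg fun θ => sq_nonneg _
  obtain ⟨b, hb⟩ : ∃ b : ℝ, b = ∫ θ, (1 - r2 θ) ^ 3 ∂μ := ⟨_, rfl⟩
  -- one mode, second moment
  have htwo : ∀ k : Fin d → ZMod L, k ≠ 0 →
      (∫ θ, Nf (ck k) θ * (1 - r2 θ) ^ 2 ∂μ) + ∫ θ, Nf (sk k) θ * (1 - r2 θ) ^ 2 ∂μ ≤
        (2 * C * W * Real.sqrt U * a2 μ + C * U * L / 2) * (1 / Real.sqrt (lam k)) +
          if 3 • k = 0 then W * Real.sqrt U else 0 := by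
    intro k hk
    have hl := hlam0 k hk
    have hsl' := hsl k hk
    have hsp : 0 < Real.sqrt (lam k) := Real.sqrt_pos.2 hl
    have hfirst : 0 ≤ (2 * C * W * Real.sqrt U * a2 μ + C * U * L / 2) *
        (1 / Real.sqrt (lam k)) := by positivity
    by_cases h3 : 3 • k = 0
    · rw [if_pos h3]
      have hle : ∀ f : (Fin d → ZMod L) → ℝ,
          ∫ θ, Nf f θ * (1 - r2 θ) ^ 2 ∂μ ≤ ∫ θ, Nf f θ ∂μ := by
        intro f
        refine integral_mono (tpi hT μ _ (memND hT f 2)) (tpi hT μ _ (hT.mem f).2.2.2.2.2.1)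
          fun θ => ?_
        obtain ⟨q1, q2⟩ := hr2 θ
        have q3 : (1 - r2 θ) ^ 2 ≤ 1 := pow_le_one₀ q1 q2
        calc Nf f θ * (1 - r2 θ) ^ 2 ≤ Nf f θ * 1 := mul_le_mul_of_nonneg_left q3 (hNf0 f θ)
          _ = Nf f θ := mul_one _
      have h4 := hone k hk
      have h5 : (1 : ℝ) ≤ Real.sqrt (lam k) := by
        apply Real.le_sqrt_of_sq_le
        have := hP.three d L k hk h3
        linarith
      have h6 : 1 / Real.sqrt (lam k) ≤ 1 := by
        rw [div_le_one hsp]; exact h5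
      have h7 : Real.sqrt U * W * (1 / Real.sqrt (lam k)) ≤ Real.sqrt U * W * 1 :=
        mul_le_mul_of_nonneg_left h6 (by positivity)
      linarith [hle (ck k), hle (sk k)]
    · rw [if_neg h3, add_zero]
      obtain ⟨c1, c2⟩ := hP.cub d L k hk h3
      have q1 := hsq d L U (lam k) μ (ck k) hU hl hμ (fun x => (hP.lapc d L k x).1) c1
      have q2 := hsq d L U (lam k) μ (sk k) hU hl hμ (fun x => (hP.lapc d L k x).2) c2
      rw [rotXY hT μ hμ.rot, rotXY hT μ hμ.rot]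
      rw [← hW] at q1 q2
      have h8 : 1 / lam k ≤ L / 4 * (1 / Real.sqrt (lam k)) := by
        have e1 : lam k = Real.sqrt (lam k) * Real.sqrt (lam k) := (Real.mul_self_sqrt hl.le).symm
        have e2 : 1 / Real.sqrt (lam k) ≤ L / 4 := by
          rw [div_le_iff₀ hsp]
          have : (L : ℝ) / 4 * (4 / L) ≤ L / 4 * Real.sqrt (lam k) :=
            mul_le_mul_of_nonneg_left hsl' (by positivity)
          have e3 : (L : ℝ) / 4 * (4 / L) = 1 := by field_simp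
          linarith
        calc 1 / lam k = 1 / Real.sqrt (lam k) * (1 / Real.sqrt (lam k)) := by
              conv_lhs => rw [e1]
              rw [one_div_mul_one_div]
          _ ≤ L / 4 * (1 / Real.sqrt (lam k)) := mul_le_mul_of_nonneg_right e2 (by positivity)
      have h9 := hnorm k
      have h10 : C * ((∑ x, ck k x ^ 2) * Real.sqrt U / Real.sqrt (lam k) * a2 μ +
          (∑ x, ck k x ^ 2) * U / (W * lam k)) + C * ((∑ x, sk k x ^ 2) * Real.sqrt U /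
            Real.sqrt (lam k) * a2 μ + (∑ x, sk k x ^ 2) * U / (W * lam k)) =
          C * (W * Real.sqrt U * a2 μ * (1 / Real.sqrt (lam k)) + U * (1 / lam k)) := by
        rw [← mul_add]
        congr 1
        have : (∑ x, ck k x ^ 2) * Real.sqrt U / Real.sqrt (lam k) * a2 μ +
          (∑ x, ck k x ^ 2) * U / (W * lam k) + ((∑ x, sk k x ^ 2) * Real.sqrt U /
            Real.sqrt (lam k) * a2 μ + (∑ x, sk k x ^ 2) * U / (W * lam k)) =
          ((∑ x, ck k x ^ 2) + ∑ x, sk k x ^ 2) * (Real.sqrt U / Real.sqrt (lam k) * a2 μ +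
            U / (W * lam k)) := by ring
        rw [this, h9]
        field_simp
      have h11 : C * (U * (1 / lam k)) ≤ C * (U * (L / 4 * (1 / Real.sqrt (lam k)))) := by
        gcongr
      calc 2 * (∫ θ, Xf (ck k) θ ^ 2 * (1 - r2 θ) ^ 2 ∂μ) +
            2 * ∫ θ, Xf (sk k) θ ^ 2 * (1 - r2 θ) ^ 2 ∂μ
          ≤ 2 * (C * (W * Real.sqrt U * a2 μ * (1 / Real.sqrt (lam k)) + U * (1 / lam k))) := by
            rw [← h10]
            linarith
        _ ≤ 2 * (C * (W * Real.sqrt U * a2 μ * (1 / Real.sqrt (lam k)))) +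
            2 * (C * (U * (L / 4 * (1 / Real.sqrt (lam k))))) := by linarith
        _ = _ := by ring
  have hbb : b ≤ 2 * C * C1 * Real.sqrt U * a2 μ + E / L := by
    have h := plan hT hP μ 2
    rw [← hW, ← hb] at h
    have hfew : ∑ k ∈ (Finset.univ : Finset (Fin d → ZMod L)).erase 0,
        (if 3 • k = 0 then W * Real.sqrt U else 0) ≤ 3 ^ d * (W * Real.sqrt U) := by
      calc ∑ k ∈ (Finset.univ : Finset (Fin d → ZMod L)).erase 0,
          (if 3 • k = 0 then W * Real.sqrt U else 0) ≤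
          ∑ k ∈ (Finset.univ : Finset (Fin d → ZMod L)),
            (if 3 • k = 0 then W * Real.sqrt U else 0) := by
            refine Finset.sum_le_sum_of_subset_of_nonneg (Finset.erase_subset _ _) fun k _ _ => ?_
            split_ifs
            · positivity
            · exact le_rfl
        _ = (((Finset.univ : Finset (Fin d → ZMod L)).filter (fun k => 3 • k = 0)).card : ℝ) *
            (W * Real.sqrt U) := by
            rw [← Finset.sum_filter, Finset.sum_const, nsmul_eq_mul]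
        _ ≤ 3 ^ d * (W * Real.sqrt U) := by
            apply mul_le_mul_of_nonneg_right _ (by positivity)
            have := hP.few d L
            exact_mod_cast this
    have h2 : W ^ 2 * b ≤ (2 * C * W * Real.sqrt U * a2 μ + C * U * L / 2) * Sg +
        3 ^ d * (W * Real.sqrt U) := by
      rw [h, hSg, Finset.mul_sum]
      refine (Finset.sum_le_sum fun k hk => htwo k (Finset.ne_of_mem_erase hk)).trans ?_
      rw [Finset.sum_add_distrib]
      linarith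
    have h3 : W ^ 2 * b ≤ (2 * C * W * Real.sqrt U * a2 μ + C * U * L / 2) * (C1 * W) +
        3 ^ d * (W * Real.sqrt U) := by
      refine h2.trans ?_
      have : (2 * C * W * Real.sqrt U * a2 μ + C * U * L / 2) * Sg ≤
          (2 * C * W * Real.sqrt U * a2 μ + C * U * L / 2) * (C1 * W) :=
        mul_le_mul_of_nonneg_left hSg1 (by positivity)
      linarith
    have h4 : W * (W * b) ≤ W * (2 * C * C1 * Real.sqrt U * a2 μ * W + (C * C1 * U * L / 2 +
        3 ^ d * Real.sqrt U)) := by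
      calc W * (W * b) = W ^ 2 * b := by ring
        _ ≤ _ := h3
        _ = _ := by ring
    have h5 := le_of_mul_le_mul_left h4 hW0
    have h6 : C * C1 * U * L / 2 + 3 ^ d * Real.sqrt U ≤ E * L := by
      have q1 : C * C1 * U * L / 2 ≤ C * C1 * 1 * L := by
        have : 0 ≤ C * C1 * U * L := by positivity
        have h7 : C * C1 * U * L ≤ C * C1 * 1 * L := by gcongr
        linarith
      have q2 : (3 : ℝ) ^ d * Real.sqrt U ≤ 3 ^ d * L := by
        gcongr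
        linarith
      rw [hE]
      calc C * C1 * U * L / 2 + 3 ^ d * Real.sqrt U ≤ C * C1 * 1 * L + 3 ^ d * L := add_le_add q1 q2
        _ = _ := by ring
    have h7 : E * L ≤ W * (E / L) := by
      have : (L : ℝ) ^ 2 * (E / L) ≤ W * (E / L) := mul_le_mul_of_nonneg_right hW2 (by positivity)
      have e : (L : ℝ) ^ 2 * (E / L) = E * L := by field_simp
      linarith
    have h8 : W * b ≤ W * (2 * C * C1 * Real.sqrt U * a2 μ + E / L) := by
      calc W * b ≤ _ := h5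
        _ ≤ 2 * C * C1 * Real.sqrt U * a2 μ * W + W * (E / L) := by linarith
        _ = _ := by ring
    exact le_of_mul_le_mul_left h8 hW0
  have hcs : a2 μ ^ 2 ≤ (C1 * Real.sqrt U) * b := by
    refine cs (by positivity) ha1 fun t => ?_
    have i1 := tpi hT μ _ (memDm hT 1)
    have i2 := tpi hT μ _ (memDm hT 2)
    have i3 := tpi hT μ _ (memDm hT 3)
    have e : ∫ θ, (1 - r2 θ) * ((1 - r2 θ) - t) ^ 2 ∂μ = b - 2 * t * a2 μ + t ^ 2 * a1 μ := by
      have e1 : (fun θ : (Fin d → ZMod L) → ℝ => (1 - r2 θ) * ((1 - r2 θ) - t) ^ 2) = fun θ =>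
          ((1 - r2 θ) ^ 3 - 2 * t * (1 - r2 θ) ^ 2) + t ^ 2 * (1 - r2 θ) ^ 1 := by
        funext θ
        ring
      have i4 : Integrable (fun θ : (Fin d → ZMod L) → ℝ =>
          (1 - r2 θ) ^ 3 - 2 * t * (1 - r2 θ) ^ 2) μ := i3.sub (i2.const_mul _)
      rw [e1, integral_add i4 (i1.const_mul _),
        integral_sub i3 (i2.const_mul _), integral_const_mul, integral_const_mul, hb]
      unfold a1 a2
      simp only [pow_one]
    rw [← e]
    exact integral_nonneg fun θ => mul_nonneg (hr2 θ).1 (sq_nonneg _)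
  refine ⟨?_, ?_⟩
  · refine ha1.trans ?_
    apply mul_le_mul_of_nonneg_right _ hs0.le
    have : 0 ≤ 2 * C * C1 ^ 2 := by positivity
    linarith
  · have hLL' : C1 * E * Real.sqrt U / U ^ 2 ≤ L := by
      refine (Nat.le_ceil _).trans ?_
      exact_mod_cast (Nat.le_succ _).trans hLL
    have herr : C1 * Real.sqrt U * (E / L) ≤ U ^ 2 := by
      rw [div_le_iff₀ (by positivity)] at hLL'
      have hL0 : (0 : ℝ) < L := by linarith
      rw [← mul_div_assoc, div_le_iff₀ hL0]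
      linarith
    have hU2 : Real.sqrt U * Real.sqrt U = U := Real.mul_self_sqrt hU.le
    have hq : a2 μ ^ 2 ≤ 2 * C * C1 ^ 2 * U * a2 μ + U ^ 2 := by
      calc a2 μ ^ 2 ≤ (C1 * Real.sqrt U) * b := hcs
        _ ≤ (C1 * Real.sqrt U) * (2 * C * C1 * Real.sqrt U * a2 μ + E / L) := by gcongr
        _ = 2 * C * C1 ^ 2 * (Real.sqrt U * Real.sqrt U) * a2 μ +
            C1 * Real.sqrt U * (E / L) := by ring
        _ ≤ _ := by rw [hU2]; linarith
    have hc : a2 μ ≤ (2 * C * C1 ^ 2 + 1) * U := by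
      by_contra hcon
      have h1 := not_le.1 hcon
      have h2 : 0 ≤ 2 * C * C1 ^ 2 * U := by positivity
      have h3 : U < a2 μ := by nlinarith
      have h4 : (2 * C * C1 ^ 2 + 1) * U * a2 μ < a2 μ * a2 μ :=
        mul_lt_mul_of_pos_right h1 (by linarith)
      nlinarith
    calc a2 μ ≤ (2 * C * C1 ^ 2 + 1) * U := hc
      _ ≤ _ := by nlinarith

end Pool.Agent.N402.QL_SUMQ
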